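import Pool.Agent.Helper85.KB.B3

set_option autoImplicit false

/-!
Stability finish: control of the sizes of the parts.
-/

namespace KB

open Finset hiding dens
open KF

section
variable (t : Fin 6 → ℝ)

/-- The quadratic part. -/
noncomputable def qq (i : Fin 6) : ℝ := ∑ j, ∑ k, t j * t k * b2r (D6 i j k)

variable {t}

theorem sum_D (i : Fin 6) (f : Fin 6 → ℝ) : ∑ j, ∑ k, f j * b2r (D6 i j k) =
    2 * ∑ j, f j - 2 * f i := by
  have h1 : ∀ j, ∑ k, f j * b2r (D6 i j k) = 2 * f j - if j = i then 2 * f j else 0 := by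
    intro j
    rw [← mul_sum, cnt2]
    by_cases h : i = j
    · rw [if_pos h, if_pos h.symm]; ring
    · rw [if_neg h, if_neg (Ne.symm h)]; ring
  simp only [h1, sum_sub_distrib, ← mul_sum, sum_ite_eq', mem_univ, if_true]

theorem sum_D' (i : Fin 6) (f : Fin 6 → ℝ) : ∑ j, ∑ k, f k * b2r (D6 i j k) =
    2 * ∑ j, f j - 2 * f i := by
  rw [sum_comm, ← sum_D]
  exact sum_congr rfl fun j _ => sum_congr rfl fun k _ => by rw [D6_23]

theorem qq_le (i : Fin 6) : qq t i ≤ 2 * ∑ j, t j ^ 2 := by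
  have h1 : qq t i ≤ ∑ j, ∑ k, (t j ^ 2 / 2 * b2r (D6 i j k) + t k ^ 2 / 2 * b2r (D6 i j k)) := by
    refine sum_le_sum fun j _ => sum_le_sum fun k _ => ?_
    have := b2r_nonneg (D6 i j k)
    nlinarith [mul_nonneg this (sq_nonneg (t j - t k))]
  have h2 : ∑ j, ∑ k, (t j ^ 2 / 2 * b2r (D6 i j k) + t k ^ 2 / 2 * b2r (D6 i j k)) =
      2 * ∑ j, t j ^ 2 - 2 * t i ^ 2 := by
    have : ∀ j, ∑ k, (t j ^ 2 / 2 * b2r (D6 i j k) + t k ^ 2 / 2 * b2r (D6 i j k)) =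
        ∑ k, t j ^ 2 / 2 * b2r (D6 i j k) + ∑ k, t k ^ 2 / 2 * b2r (D6 i j k) := fun j =>
      sum_add_distrib
    simp only [this, sum_add_distrib]
    rw [sum_D i (fun j => t j ^ 2 / 2), sum_D' i (fun j => t j ^ 2 / 2), ← sum_div]
    ring
  nlinarith [sq_nonneg (t i)]

theorem qq_ge (i : Fin 6) : -(2 * ∑ j, t j ^ 2) ≤ qq t i := by
  have h1 : ∑ j, ∑ k, -(t j ^ 2 / 2 * b2r (D6 i j k) + t k ^ 2 / 2 * b2r (D6 i j k)) ≤ qq t i := by
    refine sum_le_sum fun j _ => sum_le_sum fun k _ => ?_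
    have := b2r_nonneg (D6 i j k)
    nlinarith [mul_nonneg this (sq_nonneg (t j + t k))]
  have h2 : ∑ j, ∑ k, -(t j ^ 2 / 2 * b2r (D6 i j k) + t k ^ 2 / 2 * b2r (D6 i j k)) =
      -(2 * ∑ j, t j ^ 2 - 2 * t i ^ 2) := by
    have : ∀ j, ∑ k, -(t j ^ 2 / 2 * b2r (D6 i j k) + t k ^ 2 / 2 * b2r (D6 i j k)) =
        -(∑ k, t j ^ 2 / 2 * b2r (D6 i j k) + ∑ k, t k ^ 2 / 2 * b2r (D6 i j k)) := fun j => by
      rw [sum_neg_distrib, sum_add_distrib]
    simp only [this, sum_neg_distrib, sum_add_distrib]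
    rw [sum_D i (fun j => t j ^ 2 / 2), sum_D' i (fun j => t j ^ 2 / 2), ← sum_div]
    ring
  nlinarith [sq_nonneg (t i)]

theorem P_exp (h0 : ∑ i, t i = 0) (i : Fin 6) :
    ∑ j, ∑ k, (1 / 6 + t j) * (1 / 6 + t k) * b2r (D6 i j k) = 10 / 36 - 2 / 3 * t i + qq t i := by
  have h1 : ∀ j k, (1 / 6 + t j) * (1 / 6 + t k) * b2r (D6 i j k) = 1 / 36 * b2r (D6 i j k) +
      t j / 6 * b2r (D6 i j k) + t k / 6 * b2r (D6 i j k) + t j * t k * b2r (D6 i j k) := by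
    intro j k; ring
  simp only [h1, sum_add_distrib]
  have e : ∑ j, t j / 6 = 0 := by rw [← sum_div, h0, zero_div]
  rw [sum_D i (fun _ => 1 / 36), sum_D i (fun j => t j / 6), sum_D' i (fun j => t j / 6), e]
  unfold qq
  simp only [sum_const, card_univ, Fintype.card_fin]
  ring

theorem sum_qq (h0 : ∑ i, t i = 0) : ∑ i, qq t i = -(2 * ∑ i, t i ^ 2) := by
  have h1 : ∑ i, qq t i = ∑ j, ∑ k, t j * t k * ∑ i, b2r (D6 i j k) := by
    unfold qq
    rw [sum_comm]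
    refine sum_congr rfl fun j _ => ?_
    rw [sum_comm]
    exact sum_congr rfl fun k _ => by rw [mul_sum]
  have h2 : ∀ j k : Fin 6, ∑ i, b2r (D6 i j k) = if j = k then 0 else 2 := by
    intro j k
    rw [← cnt2]
    exact sum_congr rfl fun i _ => by rw [D6_12, D6_23]
  have h3 : ∀ j k : Fin 6, t j * t k * ∑ i, b2r (D6 i j k) = 2 * (t j * t k) -
      if j = k then 2 * (t j * t k) else 0 := by
    intro j k
    rw [h2]
    by_cases h : j = k
    · rw [if_pos h, if_pos h]; ring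
    · rw [if_neg h, if_neg h]; ring
  rw [h1]
  simp only [h3, sum_sub_distrib, sum_ite_eq, mem_univ, if_true]
  have h4 : ∀ j, ∑ k, 2 * (t j * t k) = 2 * t j * ∑ k, t k := fun j => by
    rw [mul_sum]
    exact sum_congr rfl fun k _ => by ring
  simp only [h4, h0, mul_zero, sum_const_zero, zero_sub, ← mul_sum]
  rw [← neg_mul, ← neg_mul]
  congr 1
  exact sum_congr rfl fun k _ => by ring

theorem F_exp (h0 : ∑ i, t i = 0) :
    ∑ i, (1 / 6 + t i) * (10 / 36 - 2 / 3 * t i + qq t i) =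
      10 / 36 - ∑ i, t i ^ 2 + ∑ i, t i * qq t i := by
  have h1 : ∀ i, (1 / 6 + t i) * (10 / 36 - 2 / 3 * t i + qq t i) = 10 / 216 +
      t i * (10 / 36 - 1 / 9) - 2 / 3 * t i ^ 2 + qq t i / 6 + t i * qq t i := fun i => by ring
  simp only [h1, sum_add_distrib, sum_sub_distrib, ← sum_mul, ← sum_div, ← mul_sum, h0,
    sum_qq h0, sum_const, card_univ, Fintype.card_fin]
  ring

theorem tq_le {τ : ℝ} (ht : ∀ i, |t i| ≤ τ) : |∑ i, t i * qq t i| ≤ 12 * τ * ∑ i, t i ^ 2 := by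
  have hS : 0 ≤ ∑ i, t i ^ 2 := sum_nonneg fun i _ => sq_nonneg _
  refine (abs_sum_le_sum_abs _ _).trans ?_
  have h1 : ∀ i ∈ (univ : Finset (Fin 6)), |t i * qq t i| ≤ τ * (2 * ∑ i, t i ^ 2) := by
    intro i _
    rw [abs_mul]
    have h2 : |qq t i| ≤ 2 * ∑ i, t i ^ 2 := abs_le.2 ⟨qq_ge i, qq_le i⟩
    exact mul_le_mul (ht i) h2 (abs_nonneg _) ((abs_nonneg _).trans (ht i))
  refine (sum_le_sum h1).trans ?_
  rw [sum_const, card_univ, Fintype.card_fin]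
  simp only [nsmul_eq_mul]
  push_cast
  linarith

theorem cub_exp (h0 : ∑ i, t i = 0) : ∑ i, (1 / 6 + t i) ^ 3 =
    1 / 36 + (∑ i, t i ^ 2) / 2 + ∑ i, t i ^ 3 := by
  have h1 : ∀ i, (1 / 6 + t i) ^ 3 = 1 / 216 + t i * (1 / 12) + t i ^ 2 / 2 + t i ^ 3 :=
    fun i => by ring
  simp only [h1, sum_add_distrib, ← sum_mul, ← sum_div, h0, sum_const, card_univ,
    Fintype.card_fin]
  ring

theorem cub_le {τ : ℝ} (ht : ∀ i, |t i| ≤ τ) : ∑ i, t i ^ 3 ≤ τ * ∑ i, t i ^ 2 := by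
  rw [mul_sum]
  refine sum_le_sum fun i _ => ?_
  have h1 := le_trans (le_abs_self (t i)) (ht i)
  nlinarith [sq_nonneg (t i)]

end

section
variable {V : Type} [Fintype V] {E : V → V → V → Bool} {w : V → ℝ} {κ : V → Fin 6}

/-- The deviation of the size of a part. -/
noncomputable def tt (w : V → ℝ) (κ : V → Fin 6) (i : Fin 6) : ℝ := xs w κ i - 1 / 6

theorem sum_tt (hw : Wt w) : ∑ i, tt w κ i = 0 := by
  unfold tt
  rw [sum_sub_distrib, sum_xs hw]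
  simp

theorem xs_tt (i : Fin 6) : xs w κ i = 1 / 6 + tt w κ i := by unfold tt; ring

theorem PP_tt (hw : Wt w) (i : Fin 6) : PP w κ i = 10 / 36 - 2 / 3 * tt w κ i + qq (tt w κ) i := by
  rw [← P_exp (sum_tt hw)]
  unfold PP
  simp only [← xs_tt]

/-- First consequences of near optimality. -/
theorem near (ho : Opt E w) {ε θ : ℝ} (hθ : L - θ ≤ dens E w) (hb : bet E w κ + θ ≤ ε)
    (hε : ε ≤ 1 / 100) (ht : ∀ i, |tt w κ i| ≤ 1 / 60) :
    35 / 36 * (L - 2 / 7) ≤ ε ∧ ∑ i, tt w κ i ^ 2 ≤ 8 / 5 * ε ∧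
      mu E w κ + ∑ i, (L * xs w κ i ^ 3 - ei E w κ i) ≤ ε ∧ L ≤ 3 / 10 := by
  set S := ∑ i, tt w κ i ^ 2 with hS
  have hS0 : 0 ≤ S := sum_nonneg fun i _ => sq_nonneg _
  have hw := ho.wt
  have hE := ho.free
  have h0 := sum_tt (κ := κ) hw
  have h1 := glob_eq (κ := κ) ho
  have h2 : ∑ i, xs w κ i * PP w κ i = 10 / 36 - S + ∑ i, tt w κ i * qq (tt w κ) i := by
    rw [← F_exp h0]
    exact sum_congr rfl fun i _ => by rw [PP_tt hw, ← xs_tt]
  have h3 := (abs_le.1 (tq_le ht)).2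
  rw [← hS] at h3
  have h4 : ∑ i, xs w κ i ^ 3 = 1 / 36 + S / 2 + ∑ i, tt w κ i ^ 3 := by
    rw [hS, ← cub_exp h0]
    exact sum_congr rfl fun i _ => by rw [← xs_tt]
  have h5 := cub_le ht
  rw [← hS] at h5
  set D := ∑ i, (L * xs w κ i ^ 3 - ei E w κ i) with hD
  have h6 : D = L * ∑ i, xs w κ i ^ 3 - ∑ i, ei E w κ i := by
    rw [hD, sum_sub_distrib, mul_sum]
  have hD0 : 0 ≤ D := sum_nonneg fun i _ => by linarith [ei_le (κ := κ) hE hw i]
  have hm0 : 0 ≤ mu E w κ := by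
    rw [← sum_mi]
    exact sum_nonneg fun i _ => mi_nn hw i
  have hL0 := L_ge
  have hL1 := L_le_one
  have h7 : L * ∑ i, xs w κ i ^ 3 ≤ L / 36 + L * S / 2 + L * S / 60 := by
    rw [h4]
    have : L * ∑ i, tt w κ i ^ 3 ≤ L * (1 / 60 * S) :=
      mul_le_mul_of_nonneg_left h5 (by linarith)
    nlinarith
  have h8 : L - θ ≤ 10 / 36 - S + 12 * (1 / 60) * S + (L / 36 + L * S / 2 + L * S / 60) -
      mu E w κ - D + bet E w κ := by
    rw [h2] at h1
    linarith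
  have h9 : L * S ≤ S := by nlinarith
  have hL3 : L ≤ 3 / 10 := by
    have : 35 / 36 * (L - 2 / 7) ≤ ε := by nlinarith
    linarith
  have h10 : L * S ≤ 3 / 10 * S := by nlinarith
  refine ⟨by nlinarith, by nlinarith, by nlinarith, hL3⟩

/-- Linear control of the sizes. -/
theorem size (ho : Opt E w) {ε θ : ℝ} (hθ : L - θ ≤ dens E w) (hb : bet E w κ + θ ≤ ε)
    (hθ0 : 0 ≤ θ) (hε : ε ≤ 1 / 100) (ht : ∀ i, |tt w κ i| ≤ 1 / 60) (i : Fin 6) :
    |tt w κ i| ≤ 20 * ε := by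
  obtain ⟨a1, a2, a3, a4⟩ := near ho hθ hb hε ht
  have hw := ho.wt
  have hE := ho.free
  set S := ∑ i, tt w κ i ^ 2 with hS
  have hS0 : 0 ≤ S := sum_nonneg fun i _ => sq_nonneg _
  have hL0 := L_ge
  have h1 := part_eq (κ := κ) ho i
  have hm := mi_nn (E := E) (κ := κ) hw i
  have hm2 := mi_le (E := E) (κ := κ) hw i
  have hbi := bi_nn (E := E) (κ := κ) hw i
  have hbi2 := bi_le (E := E) (κ := κ) hw i
  have hD : ∀ j, 0 ≤ L * xs w κ j ^ 3 - ei E w κ j := fun j => by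
    linarith [ei_le (κ := κ) hE hw j]
  have hD2 : L * xs w κ i ^ 3 - ei E w κ i ≤ ∑ j, (L * xs w κ j ^ 3 - ei E w κ j) :=
    single_le_sum (f := fun j => L * xs w κ j ^ 3 - ei E w κ j) (fun j _ => hD j) (mem_univ i)
  have hD1 := hD i
  have ht1 := abs_le.1 (ht i)
  have hx : 3 / 20 ≤ xs w κ i := by rw [xs_tt]; linarith
  set X := dens E w - PP w κ i - L * xs w κ i ^ 2 with hX
  have h2 : xs w κ i * X = bi E w κ i - mi E w κ i - (L * xs w κ i ^ 3 - ei E w κ i) := by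
    rw [hX]
    nlinarith
  have h3 : X ≤ 20 / 3 * ε := by
    by_contra hcon
    push Not at hcon
    have hε0 : 0 ≤ ε := by linarith
    nlinarith
  have h4 : -(20 / 3 * ε) ≤ X := by
    by_contra hcon
    push Not at hcon
    have hε0 : 0 ≤ ε := by linarith
    nlinarith
  have h5 : X = (dens E w - (10 + L) / 36) + (2 / 3 - L / 3) * tt w κ i - qq (tt w κ) i -
      L * tt w κ i ^ 2 := by
    rw [hX, PP_tt hw, xs_tt]
    ring
  have h6 := qq_le (t := tt w κ) i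
  have h7 := qq_ge (t := tt w κ) i
  rw [← hS] at h6 h7
  have h8 : tt w κ i ^ 2 ≤ S := single_le_sum (f := fun i => tt w κ i ^ 2)
    (fun j _ => sq_nonneg _) (mem_univ i)
  have h9 : L * tt w κ i ^ 2 ≤ 3 / 10 * S := by nlinarith [sq_nonneg (tt w κ i)]
  have h10 : 0 ≤ L * tt w κ i ^ 2 := mul_nonneg (by linarith) (sq_nonneg _)
  have h11 : dens E w ≤ L := dens_le_L hE hw
  have hmu0 : 0 ≤ mu E w κ := by linarith
  rw [abs_le]
  constructor
  · by_contra hcon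
    push Not at hcon
    nlinarith
  · by_contra hcon
    push Not at hcon
    nlinarith

end

end KB
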