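import Pool.Agent.Helper85.KV.A1

set_option autoImplicit false

/-!
Stability finish: the measures attached to a partition into six parts.
-/

namespace KB

open KF Finset

/-- All three parts equal. -/
def inn (i j k : Fin 6) : Bool := decide (i = j) && decide (j = k)
/-- Neither a block nor inside a part. -/
def bad (i j k : Fin 6) : Bool := !(D6 i j k) && !(inn i j k)

theorem b2r_idem (b : Bool) : b2r b * b2r b = b2r b := by cases b <;> simp

theorem b2r_not (b : Bool) : b2r (!b) = 1 - b2r b := by cases b <;> simp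

theorem b2r_and (a b : Bool) : b2r (a && b) = b2r a * b2r b := by cases a <;> cases b <;> simp

/-- The three kinds of triples. -/
theorem kinds (i j k : Fin 6) : b2r (D6 i j k) + b2r (bad i j k) + b2r (inn i j k) = 1 := by
  have h : ∀ i j k : Fin 6, (D6 i j k = true ∧ bad i j k = false ∧ inn i j k = false) ∨
      (D6 i j k = false ∧ bad i j k = true ∧ inn i j k = false) ∨
      (D6 i j k = false ∧ bad i j k = false ∧ inn i j k = true) := by decide
  rcases h i j k with ⟨h1, h2, h3⟩ | ⟨h1, h2, h3⟩ | ⟨h1, h2, h3⟩ <;> rw [h1, h2, h3] <;> simp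

theorem D6_12 (i j k : Fin 6) : D6 i j k = D6 j i k := D6_K4m.s12 i j k
theorem D6_23 (i j k : Fin 6) : D6 i j k = D6 i k j := D6_K4m.s23 i j k

theorem bad_12 : ∀ i j k : Fin 6, bad i j k = bad j i k := by decide
theorem bad_23 : ∀ i j k : Fin 6, bad i j k = bad i k j := by decide

theorem cnt2 : ∀ i j : Fin 6, ∑ k, b2r (D6 i j k) = if i = j then 0 else 2 := by
  have h : ∀ i j : Fin 6, ∑ k : Fin 6, (if D6 i j k = true then 1 else 0 : ℕ) =
      if i = j then 0 else 2 := by decide
  intro i j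
  have h1 := h i j
  have h2 : ((∑ k : Fin 6, (if D6 i j k = true then 1 else 0 : ℕ) : ℕ) : ℝ) =
      ((if i = j then 0 else 2 : ℕ) : ℝ) := by rw [h1]
  push_cast at h2
  unfold b2r
  exact h2

section
variable {V : Type} [Fintype V]

/-- Indicator of a part. -/
def ic (κ : V → Fin 6) (i : Fin 6) (v : V) : ℝ := b2r (decide (κ v = i))

variable (E : V → V → V → Bool) (w : V → ℝ) (κ : V → Fin 6)

/-- Size of a part. -/
noncomputable def xs (i : Fin 6) : ℝ := ∑ v, w v * ic κ i v
/-- Missing pairs at a vertex. -/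
noncomputable def mm (a : V) : ℝ :=
  ∑ y, ∑ z, w y * w z * (b2r (D6 (κ a) (κ y) (κ z)) * (1 - b2r (E a y z)))
/-- Bad pairs at a vertex. -/
noncomputable def bb (a : V) : ℝ :=
  ∑ y, ∑ z, w y * w z * (b2r (bad (κ a) (κ y) (κ z)) * b2r (E a y z))
/-- Inner pairs at a vertex. -/
noncomputable def gg (a : V) : ℝ :=
  ∑ y, ∑ z, w y * w z * (b2r (inn (κ a) (κ y) (κ z)) * b2r (E a y z))
/-- Size of the ideal link. -/
noncomputable def PP (i : Fin 6) : ℝ := ∑ j, ∑ k, xs w κ j * xs w κ k * b2r (D6 i j k)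
/-- Ideal codegree. -/
noncomputable def II (i j : Fin 6) : ℝ := ∑ k, xs w κ k * b2r (D6 i j k)
/-- Codegrees with a part. -/
noncomputable def AA (j : Fin 6) (a : V) : ℝ := ∑ y, ∑ z, w y * w z * (ic κ j y * b2r (E a y z))
/-- Total of the bad triples. -/
noncomputable def bet : ℝ := ∑ a, w a * bb E w κ a
/-- Total of the missing triples. -/
noncomputable def mu : ℝ := ∑ a, w a * mm E w κ a

variable {E w κ}

theorem ic_nn (i : Fin 6) (v : V) : 0 ≤ ic κ i v := b2r_nonneg _

theorem ic_self (v : V) : ic κ (κ v) v = 1 := by unfold ic; simp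

theorem ic_of (i : Fin 6) (v : V) (f : Fin 6 → ℝ) : ic κ i v * f (κ v) = ic κ i v * f i := by
  unfold ic
  by_cases h : κ v = i
  · rw [h]
  · simp [h]

theorem sum_ic (v : V) : ∑ i, ic κ i v = 1 := by
  unfold ic b2r
  simp

/-- Sum over the parts. -/
theorem fib (f : Fin 6 → ℝ) : ∑ v, w v * f (κ v) = ∑ i, xs w κ i * f i := by
  unfold xs
  simp only [sum_mul]
  rw [sum_comm]
  refine sum_congr rfl fun v _ => ?_
  have : ∀ i, w v * ic κ i v * f i = w v * (ic κ i v * f (κ v)) := fun i => by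
    rw [ic_of]; ring
  simp only [this]
  rw [← mul_sum, ← sum_mul, sum_ic, one_mul]

theorem fib2 (f : Fin 6 → Fin 6 → ℝ) : ∑ y, ∑ z, w y * w z * f (κ y) (κ z) =
    ∑ i, ∑ j, xs w κ i * xs w κ j * f i j := by
  have h1 : ∀ y, ∑ z, w y * w z * f (κ y) (κ z) = w y * ∑ j, xs w κ j * f (κ y) j := by
    intro y
    rw [← fib (w := w) (κ := κ) (f (κ y)), mul_sum]
    exact sum_congr rfl fun z _ => by ring
  simp only [h1]
  rw [fib (w := w) (κ := κ) (fun i => ∑ j, xs w κ j * f i j)]
  refine sum_congr rfl fun i _ => ?_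
  rw [mul_sum]
  exact sum_congr rfl fun j _ => by ring

theorem sum_xs (hw : Wt w) : ∑ i, xs w κ i = 1 := by
  have := fib (w := w) (κ := κ) (fun _ => 1)
  simp only [mul_one] at this
  rw [← this, hw.one]

theorem xs_nn (hw : Wt w) (i : Fin 6) : 0 ≤ xs w κ i :=
  sum_nonneg fun v _ => mul_nonneg (hw.nn v) (ic_nn i v)

theorem ww_nn (hw : Wt w) (y z : V) : 0 ≤ w y * w z := mul_nonneg (hw.nn y) (hw.nn z)

theorem mm_nn (hw : Wt w) (a : V) : 0 ≤ mm E w κ a :=
  sum_nonneg fun y _ => sum_nonneg fun z _ => mul_nonneg (ww_nn hw y z)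
    (mul_nonneg (b2r_nonneg _) (by linarith [b2r_le_one (E a y z)]))

theorem bb_nn (hw : Wt w) (a : V) : 0 ≤ bb E w κ a :=
  sum_nonneg fun y _ => sum_nonneg fun z _ => mul_nonneg (ww_nn hw y z)
    (mul_nonneg (b2r_nonneg _) (b2r_nonneg _))

theorem gg_nn (hw : Wt w) (a : V) : 0 ≤ gg E w κ a :=
  sum_nonneg fun y _ => sum_nonneg fun z _ => mul_nonneg (ww_nn hw y z)
    (mul_nonneg (b2r_nonneg _) (b2r_nonneg _))

/-- The degree of a vertex in terms of the partition. -/
theorem deg_split (a : V) : deg E w a =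
    PP w κ (κ a) - mm E w κ a + bb E w κ a + gg E w κ a := by
  unfold PP
  rw [← fib2 (w := w) (κ := κ) (fun j k => b2r (D6 (κ a) j k))]
  unfold deg mm bb gg
  rw [← sum_sub_distrib, ← sum_add_distrib, ← sum_add_distrib]
  refine sum_congr rfl fun y _ => ?_
  rw [← sum_sub_distrib, ← sum_add_distrib, ← sum_add_distrib]
  refine sum_congr rfl fun z _ => ?_
  have h := kinds (κ a) (κ y) (κ z)
  have h2 : b2r (inn (κ a) (κ y) (κ z)) = 1 - b2r (D6 (κ a) (κ y) (κ z)) -
      b2r (bad (κ a) (κ y) (κ z)) := by linarith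
  rw [h2]
  ring

/-- Codegrees with another part. -/
theorem AA_ge (hE : K4m E) (hw : Wt w) (a : V) (j : Fin 6) :
    xs w κ j * II w κ (κ a) j - mm E w κ a / 2 ≤ AA E w κ j a := by
  set h : V → V → ℝ := fun y z => w y * w z *
    (b2r (D6 (κ a) (κ y) (κ z)) * (1 - b2r (E a y z))) with hh
  have hs : ∀ y z, h y z = h z y := by
    intro y z
    rw [hh]
    beta_reduce
    rw [D6_23, hE.s23]
    ring
  have h0 : ∀ y z, 0 ≤ h y z := fun y z => mul_nonneg (ww_nn hw y z)
    (mul_nonneg (b2r_nonneg _) (by linarith [b2r_le_one (E a y z)]))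
  have e1 : ∑ y, ∑ z, ic κ j y * h y z = ∑ y, ∑ z, ic κ j z * h y z := by
    rw [sum_comm]
    exact sum_congr rfl fun y _ => sum_congr rfl fun z _ => by rw [hs]
  have e2 : ∑ y, ∑ z, ic κ j y * h y z + ∑ y, ∑ z, ic κ j z * h y z ≤ mm E w κ a := by
    rw [← sum_add_distrib]
    unfold mm
    refine sum_le_sum fun y _ => ?_
    rw [← sum_add_distrib]
    refine sum_le_sum fun z _ => ?_
    change ic κ j y * h y z + ic κ j z * h y z ≤ h y z
    by_cases hy : κ y = j
    · by_cases hz : κ z = j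
      · have : h y z = 0 := by
          rw [hh]
          beta_reduce
          have : D6 (κ a) (κ y) (κ z) = false := by
            rw [hy, hz, D6_23, D6_12, D6_23]
            exact D6_K4m.irr j (κ a)
          rw [this]
          simp
        rw [this]
        simp
      · have : ic κ j z = 0 := by unfold ic; simp [hz]
        rw [this]
        have h1 : ic κ j y ≤ 1 := b2r_le_one _
        nlinarith [h0 y z]
    · have : ic κ j y = 0 := by unfold ic; simp [hy]
      rw [this]
      have h1 : ic κ j z ≤ 1 := b2r_le_one _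
      nlinarith [h0 y z]
  have e3 : xs w κ j * II w κ (κ a) j - ∑ y, ∑ z, ic κ j y * h y z ≤ AA E w κ j a := by
    have f1 : xs w κ j * II w κ (κ a) j =
        ∑ y, ∑ z, w y * w z * (ic κ j y * b2r (D6 (κ a) (κ y) (κ z))) := by
      have g1 : ∀ y, ∑ z, w y * w z * (ic κ j y * b2r (D6 (κ a) (κ y) (κ z))) =
          w y * ic κ j y * II w κ (κ a) j := by
        intro y
        have g2 := fib (w := w) (κ := κ) (fun k => b2r (D6 (κ a) j k))
        unfold II
        rw [← g2, mul_sum]
        refine sum_congr rfl fun z _ => ?_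
        have g3 := ic_of (κ := κ) j y (fun i => b2r (D6 (κ a) i (κ z)))
        beta_reduce at g3
        rw [g3]
        ring
      simp only [g1]
      rw [← sum_mul]
      rfl
    rw [f1, ← sum_sub_distrib]
    unfold AA
    refine sum_le_sum fun y _ => ?_
    rw [← sum_sub_distrib]
    refine sum_le_sum fun z _ => ?_
    rw [hh]
    beta_reduce
    have g1 : w y * w z * (ic κ j y * b2r (D6 (κ a) (κ y) (κ z))) - ic κ j y * (w y * w z *
      (b2r (D6 (κ a) (κ y) (κ z)) * (1 - b2r (E a y z)))) = w y * w z * (ic κ j y *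
      b2r (E a y z)) * b2r (D6 (κ a) (κ y) (κ z)) := by ring
    rw [g1]
    have g2 : 0 ≤ w y * w z * (ic κ j y * b2r (E a y z)) :=
      mul_nonneg (ww_nn hw y z) (mul_nonneg (ic_nn j y) (b2r_nonneg _))
    nlinarith [b2r_le_one (D6 (κ a) (κ y) (κ z)), b2r_nonneg (D6 (κ a) (κ y) (κ z))]
  linarith

/-- Codegrees with the own part. -/
theorem AA_le (hw : Wt w) (a : V) :
    AA E w κ (κ a) a ≤ deg E w a - PP w κ (κ a) + mm E w κ a := by
  unfold PP
  rw [← fib2 (w := w) (κ := κ) (fun j k => b2r (D6 (κ a) j k))]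
  unfold AA deg mm
  rw [← sum_sub_distrib, ← sum_add_distrib]
  refine sum_le_sum fun y _ => ?_
  rw [← sum_sub_distrib, ← sum_add_distrib]
  refine sum_le_sum fun z _ => ?_
  have g : w y * w z * b2r (E a y z) - w y * w z * b2r (D6 (κ a) (κ y) (κ z)) +
      w y * w z * (b2r (D6 (κ a) (κ y) (κ z)) * (1 - b2r (E a y z))) =
      w y * w z * (b2r (E a y z) * (1 - b2r (D6 (κ a) (κ y) (κ z)))) := by ring
  rw [g]
  refine mul_le_mul_of_nonneg_left ?_ (ww_nn hw y z)
  rw [mul_comm]
  refine mul_le_mul_of_nonneg_left ?_ (b2r_nonneg _)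
  by_cases h : κ y = κ a
  · have : D6 (κ a) (κ y) (κ z) = false := by rw [h]; exact D6_K4m.irr _ _
    rw [this]
    unfold ic
    simp [h]
  · have : ic κ (κ a) y = 0 := by unfold ic; simp [h]
    rw [this]
    linarith [b2r_le_one (D6 (κ a) (κ y) (κ z))]

theorem gg_le_AA (hw : Wt w) (a : V) : gg E w κ a ≤ AA E w κ (κ a) a := by
  unfold gg AA
  refine sum_le_sum fun y _ => sum_le_sum fun z _ => mul_le_mul_of_nonneg_left ?_ (ww_nn hw y z)
  refine mul_le_mul_of_nonneg_right ?_ (b2r_nonneg _)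
  unfold inn ic b2r
  by_cases h : κ y = κ a
  · simp only [h, decide_true, Bool.true_and, if_true]
    split_ifs <;> norm_num
  · have h' : ¬ κ a = κ y := fun e => h e.symm
    simp [h, h']

end

end KB
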