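import Pool.Agent.Helper85.KB.B1

set_option autoImplicit false

/-!
Stability finish: averages over the parts.
-/

namespace KB

open Finset hiding dens
open KF

section
variable {V : Type} [Fintype V]
variable (E : V → V → V → Bool) (w : V → ℝ) (κ : V → Fin 6)

/-- Average codegrees of two parts. -/
noncomputable def AM (i j : Fin 6) : ℝ := ∑ a, w a * ic κ i a * AA E w κ j a
/-- Missing triples at a part. -/
noncomputable def mi (i : Fin 6) : ℝ := ∑ a, w a * ic κ i a * mm E w κ a
/-- Bad triples at a part. -/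
noncomputable def bi (i : Fin 6) : ℝ := ∑ a, w a * ic κ i a * bb E w κ a
/-- Inner triples of a part. -/
noncomputable def ei (i : Fin 6) : ℝ := ∑ a, w a * ic κ i a * gg E w κ a

variable {E w κ}

theorem mi_nn (hw : Wt w) (i : Fin 6) : 0 ≤ mi E w κ i :=
  sum_nonneg fun a _ => mul_nonneg (mul_nonneg (hw.nn a) (ic_nn i a)) (mm_nn hw a)

theorem bi_nn (hw : Wt w) (i : Fin 6) : 0 ≤ bi E w κ i :=
  sum_nonneg fun a _ => mul_nonneg (mul_nonneg (hw.nn a) (ic_nn i a)) (bb_nn hw a)

theorem ei_nn (hw : Wt w) (i : Fin 6) : 0 ≤ ei E w κ i :=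
  sum_nonneg fun a _ => mul_nonneg (mul_nonneg (hw.nn a) (ic_nn i a)) (gg_nn hw a)

theorem sum_part (f : V → ℝ) : ∑ i, ∑ a, w a * ic κ i a * f a = ∑ a, w a * f a := by
  rw [sum_comm]
  refine sum_congr rfl fun a _ => ?_
  have : ∀ i, w a * ic κ i a * f a = ic κ i a * (w a * f a) := fun i => by ring
  simp only [this]
  rw [← sum_mul, sum_ic, one_mul]

theorem sum_mi : ∑ i, mi E w κ i = mu E w κ := sum_part _
theorem sum_bi : ∑ i, bi E w κ i = bet E w κ := sum_part _

theorem bi_le (hw : Wt w) (i : Fin 6) : bi E w κ i ≤ bet E w κ := by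
  rw [← sum_bi]
  exact single_le_sum (f := fun i => bi E w κ i) (fun j _ => bi_nn hw j) (mem_univ i)

theorem mi_le (hw : Wt w) (i : Fin 6) : mi E w κ i ≤ mu E w κ := by
  rw [← sum_mi]
  exact single_le_sum (f := fun i => mi E w κ i) (fun j _ => mi_nn hw j) (mem_univ i)

/-- The averaged degree equation. -/
theorem part_eq (ho : Opt E w) (i : Fin 6) : xs w κ i * dens E w =
    xs w κ i * PP w κ i - mi E w κ i + bi E w κ i + ei E w κ i := by
  have h1 : ∀ a, w a * ic κ i a * dens E w = w a * ic κ i a * PP w κ i -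
      w a * ic κ i a * mm E w κ a + w a * ic κ i a * bb E w κ a + w a * ic κ i a * gg E w κ a := by
    intro a
    have h2 := deg_split (E := E) (w := w) (κ := κ) a
    rw [ho.reg a] at h2
    have h3 := ic_of (κ := κ) i a (fun i => PP w κ i)
    beta_reduce at h3
    rw [h2]
    have h4 : w a * ic κ i a * (PP w κ (κ a) - mm E w κ a + bb E w κ a + gg E w κ a) =
      w a * (ic κ i a * PP w κ (κ a)) - w a * ic κ i a * mm E w κ a +
      w a * ic κ i a * bb E w κ a + w a * ic κ i a * gg E w κ a := by ring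
    rw [h4, h3]
    ring
  unfold xs mi bi ei
  rw [sum_mul, sum_congr rfl fun a _ => h1 a, sum_add_distrib, sum_add_distrib, sum_sub_distrib,
    ← sum_mul]

/-- The global identity. -/
theorem glob_eq (ho : Opt E w) : dens E w =
    ∑ i, xs w κ i * PP w κ i - mu E w κ + bet E w κ + ∑ i, ei E w κ i := by
  have h1 : ∑ i, xs w κ i * dens E w = dens E w := by
    rw [← sum_mul, sum_xs ho.wt, one_mul]
  rw [← sum_mi, ← sum_bi, ← sum_sub_distrib, ← sum_add_distrib, ← sum_add_distrib]
  conv_lhs => rw [← h1]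
  exact sum_congr rfl fun i _ => part_eq ho i

theorem ei_le_AM (hw : Wt w) (i : Fin 6) : ei E w κ i ≤ AM E w κ i i := by
  refine sum_le_sum fun a _ => ?_
  have h1 := gg_le_AA (E := E) (κ := κ) hw a
  have h2 := ic_of (κ := κ) i a (fun i => AA E w κ i a)
  beta_reduce at h2
  have h3 : w a * ic κ i a * AA E w κ i a = w a * ic κ i a * AA E w κ (κ a) a := by
    rw [mul_assoc, mul_assoc, h2]
  rw [h3]
  exact mul_le_mul_of_nonneg_left h1 (mul_nonneg (hw.nn a) (ic_nn i a))

/-- Inner edges. -/
theorem ei_eq (i : Fin 6) : ei E w κ i = dens E (fun v => w v * ic κ i v) := by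
  unfold ei gg dens
  refine sum_congr rfl fun a _ => ?_
  rw [mul_sum]
  refine sum_congr rfl fun y _ => ?_
  rw [mul_sum]
  refine sum_congr rfl fun z _ => ?_
  unfold ic inn b2r
  by_cases h1 : κ a = i
  · by_cases h2 : κ y = i
    · by_cases h3 : κ z = i
      · simp [h1, h2, h3, mul_assoc]
      · have h3' : ¬ i = κ z := fun e => h3 e.symm
        simp [h1, h2, h3, h3']
    · have h2' : ¬ i = κ y := fun e => h2 e.symm
      simp [h1, h2, h2']
  · simp [h1]

theorem ei_le (hE : K4m E) (hw : Wt w) (i : Fin 6) : ei E w κ i ≤ L * xs w κ i ^ 3 := by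
  rw [ei_eq]
  exact dens_le_L_hom hE (u := fun v => w v * ic κ i v) fun v =>
    mul_nonneg (hw.nn v) (ic_nn i v)

/-- Average codegrees of two different parts. -/
theorem AM_le (hE : K4m E) (hw : Wt w) {i j : Fin 6} (hij : i ≠ j) :
    AM E w κ i j ≤ xs w κ i * xs w κ j * II w κ i j + bet E w κ / 2 := by
  set R : Fin 6 → Fin 6 → ℝ := fun i j => ∑ a, ∑ y, ∑ z, w a * w y * w z *
    (ic κ i a * ic κ j y * (b2r (bad (κ a) (κ y) (κ z)) * b2r (E a y z))) with hR
  have hsym : R i j = R j i := by
    rw [hR]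
    beta_reduce
    rw [sum_comm]
    refine sum_congr rfl fun a _ => sum_congr rfl fun y _ => sum_congr rfl fun z _ => ?_
    rw [bad_12, hE.s12]
    ring
  have www : ∀ a y z, 0 ≤ w a * w y * w z := fun a y z =>
    mul_nonneg (mul_nonneg (hw.nn a) (hw.nn y)) (hw.nn z)
  have hsum : R i j + R j i ≤ bet E w κ := by
    rw [hR]
    beta_reduce
    unfold bet bb
    rw [← sum_add_distrib]
    refine sum_le_sum fun a _ => ?_
    rw [← sum_add_distrib, mul_sum]
    refine sum_le_sum fun y _ => ?_
    rw [← sum_add_distrib, mul_sum]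
    refine sum_le_sum fun z _ => ?_
    have h0 : 0 ≤ b2r (bad (κ a) (κ y) (κ z)) * b2r (E a y z) :=
      mul_nonneg (b2r_nonneg _) (b2r_nonneg _)
    have h1 : ic κ i a * ic κ j y + ic κ j a * ic κ i y ≤ 1 := by
      unfold ic b2r
      by_cases h1 : κ a = i
      · have : ¬ κ a = j := fun e => hij (h1.symm.trans e)
        simp only [h1, decide_true, if_true, one_mul]
        have : ¬ i = j := hij
        simp only [this, decide_false, Bool.false_eq_true, if_false, zero_mul, add_zero]
        split_ifs <;> norm_num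
      · simp only [h1, decide_false, Bool.false_eq_true, if_false, zero_mul, zero_add]
        split_ifs <;> norm_num
    have h2 : w a * w y * w z * (ic κ i a * ic κ j y *
        (b2r (bad (κ a) (κ y) (κ z)) * b2r (E a y z))) + w a * w y * w z * (ic κ j a * ic κ i y *
        (b2r (bad (κ a) (κ y) (κ z)) * b2r (E a y z))) = (ic κ i a * ic κ j y +
        ic κ j a * ic κ i y) * (w a * w y * w z * (b2r (bad (κ a) (κ y) (κ z)) *
        b2r (E a y z))) := by ring
    have h3 : w a * (w y * w z * (b2r (bad (κ a) (κ y) (κ z)) * b2r (E a y z))) =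
        w a * w y * w z * (b2r (bad (κ a) (κ y) (κ z)) * b2r (E a y z)) := by ring
    rw [h2, h3]
    have h4 := mul_nonneg (www a y z) h0
    nlinarith
  have h1 : AM E w κ i j ≤ xs w κ i * xs w κ j * II w κ i j + R i j := by
    have e1 : xs w κ i * xs w κ j * II w κ i j = ∑ a, ∑ y, ∑ z, w a * w y * w z *
        (ic κ i a * ic κ j y * b2r (D6 (κ a) (κ y) (κ z))) := by
      have g1 : ∀ a y, ∑ z, w a * w y * w z * (ic κ i a * ic κ j y *
          b2r (D6 (κ a) (κ y) (κ z))) = w a * ic κ i a * (w y * ic κ j y) * II w κ i j := by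
        intro a y
        unfold II
        rw [← fib (w := w) (κ := κ) (fun k => b2r (D6 i j k)), mul_sum]
        refine sum_congr rfl fun z _ => ?_
        have g2 := ic_of (κ := κ) i a (fun i => b2r (D6 i (κ y) (κ z)))
        have g3 := ic_of (κ := κ) j y (fun j => b2r (D6 i j (κ z)))
        beta_reduce at g2 g3
        calc w a * w y * w z * (ic κ i a * ic κ j y * b2r (D6 (κ a) (κ y) (κ z)))
            = w a * w y * w z * ic κ j y * (ic κ i a * b2r (D6 (κ a) (κ y) (κ z))) := by ring
          _ = w a * w y * w z * ic κ i a * (ic κ j y * b2r (D6 i (κ y) (κ z))) := by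
              rw [g2]; ring
          _ = _ := by rw [g3]; ring
      simp only [g1]
      have g4 : xs w κ i * xs w κ j * II w κ i j =
          (∑ a, w a * ic κ i a) * (∑ y, w y * ic κ j y) * II w κ i j := rfl
      rw [g4, sum_mul_sum, sum_mul]
      exact sum_congr rfl fun a _ => by rw [sum_mul]
    rw [e1, hR]
    beta_reduce
    rw [← sum_add_distrib]
    unfold AM AA
    refine sum_le_sum fun a _ => ?_
    rw [← sum_add_distrib, mul_sum]
    refine sum_le_sum fun y _ => ?_
    rw [← sum_add_distrib, mul_sum]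
    refine sum_le_sum fun z _ => ?_
    have h5 : ic κ i a * ic κ j y * b2r (inn (κ a) (κ y) (κ z)) = 0 := by
      unfold ic inn b2r
      by_cases h1 : κ a = i
      · by_cases h2 : κ y = j
        · have : ¬ κ a = κ y := fun e => hij (h1.symm.trans (e.trans h2))
          simp [this]
        · simp [h2]
      · simp [h1]
    have h6 := kinds (κ a) (κ y) (κ z)
    have h7 : w a * ic κ i a * (w y * w z * (ic κ j y * b2r (E a y z))) = w a * w y * w z *
        (ic κ i a * ic κ j y * (b2r (D6 (κ a) (κ y) (κ z)) + b2r (bad (κ a) (κ y) (κ z)) +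
          b2r (inn (κ a) (κ y) (κ z))) * b2r (E a y z)) := by rw [h6]; ring
    have h8 : w a * w y * w z *
        (ic κ i a * ic κ j y * (b2r (D6 (κ a) (κ y) (κ z)) + b2r (bad (κ a) (κ y) (κ z)) +
          b2r (inn (κ a) (κ y) (κ z))) * b2r (E a y z)) = w a * w y * w z *
        (ic κ i a * ic κ j y * (b2r (D6 (κ a) (κ y) (κ z)) + b2r (bad (κ a) (κ y) (κ z)))
          * b2r (E a y z)) + w a * w y * w z * (ic κ i a * ic κ j y *
            b2r (inn (κ a) (κ y) (κ z))) * b2r (E a y z) := by ring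
    rw [h7, h8, h5]
    have h9 : w a * w y * w z * (ic κ i a * ic κ j y * b2r (D6 (κ a) (κ y) (κ z))) +
        w a * w y * w z * (ic κ i a * ic κ j y * (b2r (bad (κ a) (κ y) (κ z)) *
          b2r (E a y z))) - w a * w y * w z *
        (ic κ i a * ic κ j y * (b2r (D6 (κ a) (κ y) (κ z)) + b2r (bad (κ a) (κ y) (κ z)))
          * b2r (E a y z)) = w a * w y * w z * (ic κ i a * ic κ j y *
          b2r (D6 (κ a) (κ y) (κ z))) * (1 - b2r (E a y z)) := by ring
    have h10 : 0 ≤ w a * w y * w z * (ic κ i a * ic κ j y *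
          b2r (D6 (κ a) (κ y) (κ z))) * (1 - b2r (E a y z)) :=
      mul_nonneg (mul_nonneg (www a y z) (mul_nonneg (mul_nonneg (ic_nn i a) (ic_nn j y))
        (b2r_nonneg _))) (by linarith [b2r_le_one (E a y z)])
    linarith
  linarith

end

end KB
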