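import Pool.Agent.Helper85.KB.B2

set_option autoImplicit false

/-!
Stability finish: codegrees from the second variation.
-/

namespace KB

open Finset hiding dens
open KF

section
variable {V : Type} [Fintype V]

theorem tri_comb {E : V → V → V → Bool} {n : ℕ} (w : V → ℝ) (U : Fin n → V → ℝ)
    (c : Fin n → ℝ) :
    tri E (fun v => ∑ i, c i * U i v) (fun v => ∑ i, c i * U i v) w =
      ∑ i, ∑ j, c i * c j * tri E (U i) (U j) w := by
  unfold tri
  have e1 : ∀ x y z : V, (∑ i, c i * U i x) * (∑ i, c i * U i y) * w z * b2r (E x y z) =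
      ∑ i, ∑ j, c i * c j * (U i x * U j y * w z * b2r (E x y z)) := by
    intro x y z
    rw [sum_mul_sum, sum_mul, sum_mul]
    refine sum_congr rfl fun i _ => ?_
    rw [sum_mul, sum_mul]
    exact sum_congr rfl fun j _ => by ring
  simp only [e1]
  have e2 : ∀ x y : V, ∑ z, ∑ i, ∑ j, c i * c j * (U i x * U j y * w z * b2r (E x y z)) =
      ∑ i, ∑ j, c i * c j * ∑ z, U i x * U j y * w z * b2r (E x y z) := by
    intro x y
    rw [sum_comm]
    refine sum_congr rfl fun i _ => ?_
    rw [sum_comm]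
    exact sum_congr rfl fun j _ => by rw [mul_sum]
  simp only [e2]
  have e3 : ∀ x : V, ∑ y, ∑ i, ∑ j, c i * c j * ∑ z, U i x * U j y * w z * b2r (E x y z) =
      ∑ i, ∑ j, c i * c j * ∑ y, ∑ z, U i x * U j y * w z * b2r (E x y z) := by
    intro x
    rw [sum_comm]
    refine sum_congr rfl fun i _ => ?_
    rw [sum_comm]
    exact sum_congr rfl fun j _ => by rw [mul_sum]
  simp only [e3]
  rw [sum_comm]
  refine sum_congr rfl fun i _ => ?_
  rw [sum_comm]
  exact sum_congr rfl fun j _ => by rw [mul_sum]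

/-- Second variation for a combination of total mass zero. -/
theorem comb_le {E : V → V → V → Bool} {w : V → ℝ} (ho : Opt E w) {n : ℕ} (U : Fin n → V → ℝ)
    (c : Fin n → ℝ) (h0 : ∑ i, c i * ∑ v, U i v = 0) :
    ∑ i, ∑ j, c i * c j * tri E (U i) (U j) w ≤ 0 := by
  have h1 := second_var ho (fun v => ∑ i, c i * U i v)
  have h2 : ∑ v, ∑ i, c i * U i v = 0 := by
    rw [sum_comm, ← h0]
    exact sum_congr rfl fun i _ => by rw [mul_sum]
  rw [h2, tri_comb] at h1
  simpa using h1

variable {E : V → V → V → Bool} {w : V → ℝ} {κ : V → Fin 6}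

/-- The measure of a part. -/
noncomputable def wp (w : V → ℝ) (κ : V → Fin 6) (i : Fin 6) : V → ℝ := fun v => w v * ic κ i v

theorem tri_pt_pt_cod [DecidableEq V] (a y : V) : tri E (pt a) (pt y) w = cod E w a y := by
  rw [tri_pt]
  unfold cod pt
  rw [sum_eq_single y]
  · refine sum_congr rfl fun z _ => ?_
    rw [if_pos rfl]; ring
  · intro b _ hb
    refine sum_eq_zero fun z _ => ?_
    rw [if_neg hb]; ring
  · intro h
    exact absurd (mem_univ y) h

theorem tri_pt_wp [DecidableEq V] (a : V) (j : Fin 6) : tri E (pt a) (wp w κ j) w = AA E w κ j a := by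
  rw [tri_pt]
  unfold AA wp
  exact sum_congr rfl fun y _ => sum_congr rfl fun z _ => by ring

theorem tri_wp_wp (i j : Fin 6) : tri E (wp w κ i) (wp w κ j) w = AM E w κ i j := by
  unfold tri AM AA wp
  refine sum_congr rfl fun a _ => ?_
  rw [mul_sum]
  refine sum_congr rfl fun y _ => ?_
  rw [mul_sum]
  exact sum_congr rfl fun z _ => by ring

theorem sum_wp (i : Fin 6) : ∑ v, wp w κ i v = xs w κ i := rfl

theorem AM_comm (hE : K4m E) (i j : Fin 6) : AM E w κ i j = AM E w κ j i := by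
  rw [← tri_wp_wp, ← tri_wp_wp, tri_swap12 hE]

/-- Codegree of vertices of different parts, from below. -/
theorem cod_ge (ho : Opt E w) (a y : V) {i j : Fin 6} (hi : 0 < xs w κ i) (hj : 0 < xs w κ j) :
    AA E w κ j a / xs w κ j + AA E w κ i y / xs w κ i - AA E w κ i a / xs w κ i -
      AA E w κ j y / xs w κ j + AM E w κ i i / xs w κ i ^ 2 / 2 + AM E w κ j j / xs w κ j ^ 2 / 2 -
      AM E w κ i j / (xs w κ i * xs w κ j) ≤ cod E w a y := by
  classical
  have h := comb_le ho ![pt a, pt y, wp w κ i, wp w κ j]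
    ![1, -1, -(1 / xs w κ i), 1 / xs w κ j] (by
      simp only [Fin.sum_univ_four, Matrix.cons_val]
      rw [sum_pt, sum_pt, sum_wp, sum_wp]
      field_simp
      ring)
  simp only [Fin.sum_univ_four, Matrix.cons_val] at h
  have hE := ho.free
  rw [tri_pt_pt hE, tri_pt_pt hE, tri_swap12 hE (pt y) (pt a), tri_swap12 hE (wp w κ i) (pt a),
    tri_swap12 hE (wp w κ j) (pt a), tri_swap12 hE (wp w κ i) (pt y),
    tri_swap12 hE (wp w κ j) (pt y), tri_pt_pt_cod, tri_pt_wp, tri_pt_wp, tri_pt_wp, tri_pt_wp,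
    tri_wp_wp, tri_wp_wp, tri_wp_wp, tri_wp_wp, AM_comm hE j i] at h
  have e : AA E w κ j a / xs w κ j + AA E w κ i y / xs w κ i - AA E w κ i a / xs w κ i -
      AA E w κ j y / xs w κ j + AM E w κ i i / xs w κ i ^ 2 / 2 + AM E w κ j j / xs w κ j ^ 2 / 2 -
      AM E w κ i j / (xs w κ i * xs w κ j) = AA E w κ j a * (1 / xs w κ j) +
      AA E w κ i y * (1 / xs w κ i) - AA E w κ i a * (1 / xs w κ i) -
      AA E w κ j y * (1 / xs w κ j) + AM E w κ i i * ((1 / xs w κ i) * (1 / xs w κ i)) / 2 +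
      AM E w κ j j * ((1 / xs w κ j) * (1 / xs w κ j)) / 2 -
      AM E w κ i j * ((1 / xs w κ i) * (1 / xs w κ j)) := by
    field_simp
  rw [e]
  linarith

/-- Codegree of vertices, from above. -/
theorem cod_le (ho : Opt E w) (a z : V) {i : Fin 6} (hi : 0 < xs w κ i) :
    cod E w a z ≤ 2 * (AA E w κ i a / xs w κ i) + 2 * (AA E w κ i z / xs w κ i) -
      2 * (AM E w κ i i / xs w κ i ^ 2) := by
  classical
  have h := comb_le ho ![pt a, pt z, wp w κ i] ![1, 1, -(2 / xs w κ i)] (by
      simp only [Fin.sum_univ_three, Matrix.cons_val]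
      rw [sum_pt, sum_pt, sum_wp]
      field_simp
      ring)
  simp only [Fin.sum_univ_three, Matrix.cons_val] at h
  have hE := ho.free
  rw [tri_pt_pt hE, tri_pt_pt hE, tri_swap12 hE (pt z) (pt a), tri_swap12 hE (wp w κ i) (pt a),
    tri_swap12 hE (wp w κ i) (pt z), tri_pt_pt_cod, tri_pt_wp, tri_pt_wp, tri_wp_wp] at h
  have e : 2 * (AA E w κ i a / xs w κ i) + 2 * (AA E w κ i z / xs w κ i) -
      2 * (AM E w κ i i / xs w κ i ^ 2) = AA E w κ i a * (2 / xs w κ i) +
      AA E w κ i z * (2 / xs w κ i) - AM E w κ i i * ((2 / xs w κ i) * (2 / xs w κ i)) / 2 := by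
    field_simp
  rw [e]
  linarith

end

end KB
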